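import Pool.Agent.T2h19.AP.Stm2

set_option autoImplicit false

open MvPolynomial

namespace Pool.Agent.T2h18.AP

open Pool.Agent.T2h19.AP

open scoped Kronecker

/-- The matrix of `ad`. -/
def kr (h h' : M3) : Matrix I4 I4 ℂ :=
  (h ⊗ₖ h'.transpose) ⊗ₖ (h ⊗ₖ h'.transpose)

theorem ad_eq (h h' : M3) (z : I4 → ℂ) : ad h h' z = (kr h h').mulVec z := by
  funext p
  simp only [ad, kr, LinearMap.pi_apply, LinearMap.sum_apply, LinearMap.smul_apply, co,
    LinearMap.proj_apply, smul_eq_mul, Matrix.mulVec, dotProduct, Fintype.sum_prod_type,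
    Matrix.kroneckerMap_apply, Matrix.transpose_apply]

theorem ad_ad (h h' k k' : M3) (z : I4 → ℂ) : ad h h' (ad k k' z) = ad (h * k) (k' * h') z := by
  rw [ad_eq, ad_eq, ad_eq, Matrix.mulVec_mulVec]
  congr 1
  unfold kr
  rw [Matrix.transpose_mul, Matrix.mul_kronecker_mul, Matrix.mul_kronecker_mul]

theorem ad_one (z : I4 → ℂ) : ad 1 1 z = z := by
  rw [ad_eq]
  unfold kr
  rw [Matrix.transpose_one, Matrix.one_kronecker_one, Matrix.one_kronecker_one, Matrix.one_mulVec]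

theorem ad_apply (h h' : M3) (z : I4 → ℂ) (p : I4) :
    ad h h' z p = ∑ a : Fin 3, ∑ b : Fin 3, ∑ c : Fin 3, ∑ d : Fin 3,
      (h p.1.1 a * h' b p.1.2 * (h p.2.1 c * h' d p.2.2)) * z ((a, b), (c, d)) := by
  simp only [ad, LinearMap.pi_apply, LinearMap.sum_apply, LinearMap.smul_apply, co,
    LinearMap.proj_apply, smul_eq_mul]

theorem ad_wedge (h h' x y : M3) : ad h h' (wedge x y) = wedge (h * x * h') (h * y * h') := by
  funext p
  rw [ad_apply]
  simp only [wedge, Matrix.mul_apply, Fin.sum_univ_three]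
  ring

/-- The automorphism. -/
noncomputable def adE (h h' : M3) (h1 : h * h' = 1) (h2 : h' * h = 1) :
    (I4 → ℂ) ≃ₗ[ℂ] (I4 → ℂ) :=
  LinearEquiv.ofLinearMap (ad h h') (ad h' h)
    (by
      ext z : 1
      apply LinearMap.ext
      intro z'
      simp only [LinearMap.comp_apply]
      rw [ad_ad, h1, ad_one]
      rfl)
    (by
      ext z : 1
      apply LinearMap.ext
      intro z'
      simp only [LinearMap.comp_apply]
      rw [ad_ad, h2, ad_one]
      rfl)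

theorem γ0_apply (z : I4 → ℂ) (p : I4) : γ0 z p = z (σ0 p) := rfl

theorem γ0_wedge (x y : M3) : γ0 (wedge x y) = wedge (anti x) (anti y) := by
  funext p
  rfl

theorem γ0_γ0 (z : I4 → ℂ) : γ0 (γ0 z) = z := by
  funext p
  rw [γ0_apply, γ0_apply]
  congr 1
  obtain ⟨⟨a, b⟩, ⟨c, d⟩⟩ := p
  simp [σ0]

theorem anti_mul (x y : M3) : anti x * anti y = anti (y * x) := by
  ext i j
  simp only [anti, Matrix.mul_apply, Matrix.of_apply, Fin.sum_univ_three]
  have e0 : Fin.rev (0 : Fin 3) = 2 := by decide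
  have e1 : Fin.rev (1 : Fin 3) = 1 := by decide
  have e2 : Fin.rev (2 : Fin 3) = 0 := by decide
  rw [e0, e1, e2]
  ring

theorem anti_trace (x : M3) : (anti x).trace = x.trace := by
  simp only [anti, Matrix.trace, Matrix.diag, Matrix.of_apply, Fin.sum_univ_three]
  have e0 : Fin.rev (0 : Fin 3) = 2 := by decide
  have e1 : Fin.rev (1 : Fin 3) = 1 := by decide
  have e2 : Fin.rev (2 : Fin 3) = 0 := by decide
  rw [e0, e1, e2]
  ring

theorem ad_mem (h h' : M3) (h2 : h' * h = 1) {z : I4 → ℂ} (hz : z ∈ C0) :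
    ad h h' z ∈ C0 := by
  obtain ⟨x, y, hx, hy, hxy, rfl⟩ := hz
  refine ⟨h * x * h', h * y * h', ?_, ?_, ?_, ad_wedge _ _ _ _⟩
  · rw [Matrix.trace_mul_cycle, h2, Matrix.one_mul, hx]
  · rw [Matrix.trace_mul_cycle, h2, Matrix.one_mul, hy]
  · calc h * x * h' * (h * y * h') = h * x * (h' * h) * y * h' := by
          simp only [Matrix.mul_assoc]
      _ = h * (x * y) * h' := by rw [h2, Matrix.mul_one, Matrix.mul_assoc h x y]
      _ = h * (y * x) * h' := by rw [hxy]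
      _ = h * y * (h' * h) * x * h' := by rw [h2, Matrix.mul_one, Matrix.mul_assoc h y x]
      _ = h * y * h' * (h * x * h') := by simp only [Matrix.mul_assoc]

theorem ad_mem_iff (h h' : M3) (h1 : h * h' = 1) (h2 : h' * h = 1) (z : I4 → ℂ) :
    ad h h' z ∈ C0 ↔ z ∈ C0 := by
  constructor
  · intro hz
    have := ad_mem h' h h1 hz
    rwa [ad_ad, h2, ad_one] at this
  · exact ad_mem h h' h2

theorem γ0_mem {z : I4 → ℂ} (hz : z ∈ C0) : γ0 z ∈ C0 := by
  obtain ⟨x, y, hx, hy, hxy, rfl⟩ := hz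
  refine ⟨anti x, anti y, ?_, ?_, ?_, γ0_wedge _ _⟩
  · rw [anti_trace, hx]
  · rw [anti_trace, hy]
  · rw [anti_mul, anti_mul, hxy]

theorem γ0_mem_iff (z : I4 → ℂ) : γ0 z ∈ C0 ↔ z ∈ C0 := by
  constructor
  · intro hz
    have := γ0_mem hz
    rwa [γ0_γ0] at this
  · exact γ0_mem

theorem adw_ : S_ADW := by
  refine ⟨ad_wedge, ?_, γ0_wedge, γ0_γ0, ?_, ?_, ?_, ?_⟩
  · intro h h' h1 h2
    exact ⟨adE h h' h1 h2, ⟨h, h', h1, h2, Or.inl fun z => rfl⟩, fun z => rfl, fun z => rfl⟩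
  · exact ⟨1, 1, Matrix.one_mul 1, Matrix.one_mul 1, Or.inl fun z => (ad_one z).symm⟩
  · exact ⟨1, 1, Matrix.one_mul 1, Matrix.one_mul 1, Or.inr fun z => by rw [ad_one]⟩
  · rintro w ⟨h, h', h1, h2, hw | hw⟩
    · exact ⟨h, h', h1, h2, Or.inr fun z => by rw [LinearEquiv.trans_apply, hw]⟩
    · exact ⟨h, h', h1, h2, Or.inl fun z => by rw [LinearEquiv.trans_apply, hw, γ0_γ0]⟩
  · rintro w ⟨h, h', h1, h2, hw | hw⟩ z
    · rw [hw, ad_mem_iff h h' h1 h2]
    · rw [hw, γ0_mem_iff, ad_mem_iff h h' h1 h2]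

end Pool.Agent.T2h18.AP
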