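import Pool.Agent.T2h19.AP.Stm2

set_option autoImplicit false

open MvPolynomial

namespace Pool.Agent.T2h18.AP

open Pool.Agent.T2h19.AP

theorem cV_eq : cV ![0, 1, 0] = (X 3 ^ 2 : MvPolynomial (Fin 6) ℂ) * X 0 +
    (X 1 ^ 2 * X 4 - 2 * X 1 * X 2 * X 3 - X 3 ^ 3 + X 1 * X 3 * X 5) := by
  simp only [cV, detV, mA, mB, Matrix.det_fin_three, Matrix.of_apply, Matrix.cons_val',
    Matrix.cons_val_zero, Matrix.cons_val_one, Matrix.cons_val_fin_one, Matrix.cons_val,
    Matrix.mulVec, dotProduct, Fin.sum_univ_three, map_zero, map_one]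
  ring

theorem cF_eq : cF ![1, 0, 0] =
    ((X 2 * X 1 + X 3 ^ 2 - X 0 * X 3 - X 1 * X 5) *
      (X 2 ^ 2 + X 3 * X 4 - X 4 * X 0 - X 5 * X 2) - (X 1 * X 4 - X 2 * X 3) ^ 2 :
      MvPolynomial (Fin 6) ℂ) := by
  simp only [cF, detF, mA, mB, Matrix.det_fin_three, Matrix.of_apply, Matrix.cons_val',
    Matrix.cons_val_zero, Matrix.cons_val_one, Matrix.cons_val_fin_one, Matrix.cons_val,
    Matrix.vecMul, dotProduct, Fin.sum_univ_three, map_zero, map_one]
  ring

theorem cp3_ : S_CP3 := by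
  unfold S_CP3
  have hirr : Irreducible (cV ![0, 1, 0]) := by
    rw [cV_eq]
    apply irreducible_mul_X_add
    · exact pow_ne_zero _ (X_ne_zero _)
    · intro h
      have h1 := vars_pow (X 3 : MvPolynomial (Fin 6) ℂ) 2 h
      rw [vars_X] at h1
      simp at h1
    · intro h
      have hs : (X 1 ^ 2 * X 4 - 2 * X 1 * X 2 * X 3 - X 3 ^ 3 + X 1 * X 3 * X 5 :
          MvPolynomial (Fin 6) ℂ) ∈ supported ℂ ({0}ᶜ : Set (Fin 6)) := by
        have hX : ∀ i : Fin 6, i ≠ 0 → (X i : MvPolynomial (Fin 6) ℂ) ∈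
            supported ℂ ({0}ᶜ : Set (Fin 6)) := by
          intro i hi
          exact X_mem_supported.2 (by simpa using hi)
        have h2 : (2 : MvPolynomial (Fin 6) ℂ) ∈ supported ℂ ({0}ᶜ : Set (Fin 6)) :=
          by exact_mod_cast natCast_mem (supported ℂ ({0}ᶜ : Set (Fin 6))) 2
        have a1 := hX 1 (by decide)
        have a2 := hX 2 (by decide)
        have a3 := hX 3 (by decide)
        have a4 := hX 4 (by decide)
        have a5 := hX 5 (by decide)
        exact add_mem (sub_mem (sub_mem (mul_mem (pow_mem a1 2) a4)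
          (mul_mem (mul_mem (mul_mem h2 a1) a2) a3)) (pow_mem a3 3)) (mul_mem (mul_mem a1 a3) a5)
      rw [mem_supported] at hs
      exact hs h rfl
    · apply IsRelPrime.pow_left
      rw [(X_prime (R := ℂ) (i := (3 : Fin 6))).irreducible.isRelPrime_iff_not_dvd]
      rintro ⟨c, hc⟩
      have := congrArg (eval (![0, 1, 0, 0, 1, 0] : Fin 6 → ℂ)) hc
      simp at this
  rw [hirr.isRelPrime_iff_not_dvd]
  rintro ⟨c, hc⟩
  have := congrArg (eval (![0, 1, 1, 0, 0, 0] : Fin 6 → ℂ)) hc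
  rw [map_mul, cV_eq, cF_eq] at this
  simp at this

end Pool.Agent.T2h18.AP
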