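import Pool.Agent.T2h18.AP.ADW

set_option autoImplicit false

open MvPolynomial

namespace Pool.Agent.T2h18.AP

open Pool.Agent.T2h19.AP

section Curve

variable {ι : Type} [Fintype ι]

theorem deriv_aeval (g : ι → Polynomial ℂ) (F : MvPolynomial ι ℂ) :
    Polynomial.derivative (aeval g F) =
      ∑ i, aeval g (pderiv i F) * Polynomial.derivative (g i) := by
  classical
  induction F using MvPolynomial.induction_on with
  | C a =>
    simp
  | add p q hp hq =>
    simp only [map_add, hp, hq, add_mul, Finset.sum_add_distrib]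
  | mul_X p j hp =>
    have h : ∀ i, aeval g (pderiv i (p * X j)) =
        aeval g (pderiv i p) * g j + aeval g p * (if i = j then 1 else 0) := by
      intro i
      rw [pderiv_mul, map_add, map_mul, map_mul, aeval_X]
      congr 2
      by_cases hij : i = j
      · subst hij
        rw [if_pos rfl, pderiv_X_self, map_one]
      · rw [if_neg hij, pderiv_X_of_ne (Ne.symm hij), map_zero]
    have h3 : ∑ i, aeval g (pderiv i (p * X j)) * Polynomial.derivative (g i) =
        ∑ i, aeval g (pderiv i p) * Polynomial.derivative (g i) * g j +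
        ∑ i, (if i = j then aeval g p * Polynomial.derivative (g i) else 0) := by
      rw [← Finset.sum_add_distrib]
      refine Finset.sum_congr rfl fun i _ => ?_
      rw [h, add_mul]
      congr 1
      · exact mul_right_comm _ _ _
      · split_ifs
        · rw [mul_one]
        · rw [mul_zero, zero_mul]
    rw [map_mul, aeval_X, Polynomial.derivative_mul, hp, Finset.sum_mul, h3,
      Finset.sum_ite_eq' Finset.univ j, if_pos (Finset.mem_univ j)]

omit [Fintype ι] in
theorem eval_aeval_poly (g : ι → Polynomial ℂ) (F : MvPolynomial ι ℂ) (t : ℂ) :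
    (aeval g F).eval t = eval (fun i => (g i).eval t) F := by
  induction F using MvPolynomial.induction_on with
  | C a => simp
  | add p q hp hq => simp only [map_add, Polynomial.eval_add, hp, hq]
  | mul_X p j hp => simp only [map_mul, Polynomial.eval_mul, aeval_X, hp, eval_X]

theorem curve_tangent (I : Ideal (MvPolynomial ι ℂ)) (C : Set (ι → ℂ))
    (hI : ∀ F ∈ I, ∀ z ∈ C, eval z F = 0) (g : ι → Polynomial ℂ)
    (hg : ∀ t : ℂ, (fun i => (g i).eval t) ∈ C) :
    (fun i => (Polynomial.derivative (g i)).eval 0) ∈ tangent I (fun i => (g i).eval 0) := by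
  intro F hF
  have h0 : aeval g F = 0 := by
    apply Polynomial.funext
    intro t
    rw [eval_aeval_poly, hI F hF _ (hg t), Polynomial.eval_zero]
  have h1 := deriv_aeval g F
  rw [h0, Polynomial.derivative_zero] at h1
  have h2 := congrArg (Polynomial.eval 0) h1
  rw [Polynomial.eval_zero, Polynomial.eval_finsetSum] at h2
  simp only [Polynomial.eval_mul, eval_aeval_poly] at h2
  exact h2.symm

end Curve

/-- The commutator. -/
def br (N x : M3) : M3 := N * x - x * N

/-- The derivative of the action of `1 + t N`. -/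
def dw (N x y : M3) : I4 → ℂ := fun p => wedge (br N x) y p + wedge x (br N y) p

theorem dw_tangent (N : M3) (hN : N * N = 0) (x y : M3) (hx : x.trace = 0) (hy : y.trace = 0)
    (hxy : x * y = y * x) : dw N x y ∈ tangent (ideal C0) (wedge x y) := by
  let q : M3 → Fin 3 → Fin 3 → Polynomial ℂ := fun x i j =>
    Polynomial.C (x i j) + Polynomial.X * Polynomial.C (br N x i j) -
      Polynomial.X ^ 2 * Polynomial.C ((N * x * N) i j)
  have hq : ∀ x i j t, (q x i j).eval t = ((1 + t • N) * x * (1 - t • N)) i j := by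
    intro x i j t
    have : (1 + t • N) * x * (1 - t • N) = x + t • br N x - t ^ 2 • (N * x * N) := by
      unfold br
      simp only [add_mul, mul_sub, one_mul, mul_one, Matrix.smul_mul, Matrix.mul_smul, smul_sub,
        smul_smul]
      rw [pow_two]
      abel
    rw [this]
    simp [q, Matrix.add_apply, Matrix.sub_apply, Matrix.smul_apply]
    ring
  have hq' : ∀ x i j, (Polynomial.derivative (q x i j)).eval 0 = br N x i j := by
    intro x i j
    simp [q]
  have key := curve_tangent (ideal C0) C0 (fun F hF z hz => hF z hz)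
    (fun p => q x p.1.1 p.1.2 * q y p.2.1 p.2.2 - q y p.1.1 p.1.2 * q x p.2.1 p.2.2) (by
      intro t
      have h1 : (1 + t • N) * (1 - t • N) = 1 := by
        simp only [add_mul, mul_sub, one_mul, mul_one, Matrix.smul_mul, Matrix.mul_smul, hN,
          smul_zero]
        abel
      have h2 : (1 - t • N) * (1 + t • N) = 1 := by
        simp only [sub_mul, mul_add, one_mul, mul_one, Matrix.smul_mul, Matrix.mul_smul, hN,
          smul_zero]
        abel
      have h3 : wedge x y ∈ C0 := ⟨x, y, hx, hy, hxy, rfl⟩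
      have h4 := ad_mem (1 + t • N) (1 - t • N) h2 h3
      rw [ad_wedge] at h4
      convert h4 using 1
      funext p
      simp only [Polynomial.eval_sub, Polynomial.eval_mul, hq, wedge])
  have e1 : (fun p : I4 => (Polynomial.derivative
      (q x p.1.1 p.1.2 * q y p.2.1 p.2.2 - q y p.1.1 p.1.2 * q x p.2.1 p.2.2)).eval 0) =
      dw N x y := by
    funext p
    simp only [dw, wedge, Polynomial.derivative_sub, Polynomial.derivative_mul,
      Polynomial.eval_sub, Polynomial.eval_add, Polynomial.eval_mul, hq', hq, zero_smul, add_zero,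
      sub_zero, Matrix.one_mul, Matrix.mul_one]
    ring
  have e2 : (fun p : I4 =>
      (q x p.1.1 p.1.2 * q y p.2.1 p.2.2 - q y p.1.1 p.1.2 * q x p.2.1 p.2.2).eval 0) =
      wedge x y := by
    funext p
    simp only [Polynomial.eval_sub, Polynomial.eval_mul, hq, zero_smul, add_zero, sub_zero,
      Matrix.one_mul, Matrix.mul_one, wedge]
  rw [e1, e2] at key
  exact key

/-- The parametrization of the plane. -/
def lam : (Fin 3 → ℂ) →ₗ[ℂ] (I4 → ℂ) where
  toFun a := wedge hh (bl a)
  map_add' a b := by
    funext p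
    have h : ∀ i j, bl (a + b) i j = bl a i j + bl b i j := by
      intro i j
      fin_cases i <;> fin_cases j <;> simp [bl] <;> ring
    simp only [wedge, h, Pi.add_apply]
    ring
  map_smul' c a := by
    funext p
    have h : ∀ i j, bl (c • a) i j = c * bl a i j := by
      intro i j
      fin_cases i <;> fin_cases j <;> simp [bl]
    simp only [wedge, h, Pi.smul_apply, smul_eq_mul, RingHom.id_apply]
    ring

theorem lam_apply (a : Fin 3 → ℂ) : lam a = wedge hh (bl a) := rfl

/-- The coordinates on the plane. -/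
noncomputable def prj : (I4 → ℂ) →ₗ[ℂ] (Fin 3 → ℂ) :=
  LinearMap.pi ![(-(1 / 2) : ℂ) • co ((0, 0), (1, 1)), (-(1 / 2) : ℂ) • co ((0, 0), (1, 2)),
    (-(1 / 2) : ℂ) • co ((0, 0), (2, 1))]

theorem prj_lam (a : Fin 3 → ℂ) : prj (lam a) = a := by
  funext i
  rw [lam_apply]
  fin_cases i <;> simp [prj, co, wedge, hh, bl]

/-- The sections. -/
noncomputable def tau (N : M3) : (Fin 3 → ℂ) →ₗ[ℂ] (I4 → ℂ) where
  toFun a := dw N hh (bl a)
  map_add' a b := by
    funext p
    have h : bl (a + b) = bl a + bl b := by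
      ext i j
      fin_cases i <;> fin_cases j <;> simp [bl] <;> ring
    have h2 : br N (bl (a + b)) = br N (bl a) + br N (bl b) := by
      rw [h]
      unfold br
      rw [mul_add, add_mul]
      abel
    simp only [dw, wedge, h2, Pi.add_apply]
    simp only [h, Matrix.add_apply]
    ring
  map_smul' c a := by
    funext p
    have h : bl (c • a) = c • bl a := by
      ext i j
      fin_cases i <;> fin_cases j <;> simp [bl]
    have h2 : br N (bl (c • a)) = c • br N (bl a) := by
      rw [h]
      unfold br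
      rw [Matrix.mul_smul, Matrix.smul_mul, smul_sub]
    simp only [dw, wedge, h2, Pi.smul_apply, smul_eq_mul, RingHom.id_apply]
    simp only [h, Matrix.smul_apply, smul_eq_mul]
    ring

theorem tau_apply (N : M3) (a : Fin 3 → ℂ) : tau N a = dw N hh (bl a) := rfl

/-- The four nilpotent matrices. -/
def nn : Fin 4 → M3 :=
  ![!![0, 1, 0; 0, 0, 0; 0, 0, 0], !![0, 0, 1; 0, 0, 0; 0, 0, 0], !![0, 0, 0; 1, 0, 0; 0, 0, 0],
    !![0, 0, 0; 0, 0, 0; 1, 0, 0]]

theorem nn_sq (i : Fin 4) : nn i * nn i = 0 := by
  fin_cases i <;> ext a b <;> fin_cases a <;> fin_cases b <;>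
    simp [nn, Matrix.mul_apply, Fin.sum_univ_three]

theorem bl_trace (a : Fin 3 → ℂ) : (bl a).trace = 0 := by
  simp [bl, Matrix.trace, Fin.sum_univ_three]

theorem hh_trace : hh.trace = 0 := by
  simp [hh, Matrix.trace, Fin.sum_univ_three]
  norm_num

theorem hh_bl (a : Fin 3 → ℂ) : hh * bl a = bl a * hh := by
  ext i j
  fin_cases i <;> fin_cases j <;> simp [hh, bl, Matrix.mul_apply, Fin.sum_univ_three]

theorem lam_mem (a : Fin 3 → ℂ) : lam a ∈ C0 :=
  ⟨hh, bl a, hh_trace, bl_trace a, hh_bl a, rfl⟩

/-- The coordinates which detect the sections. -/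
theorem det_coord (c : Fin 4 → ℂ) (a b : Fin 3 → ℂ)
    (h : ∑ i, c i • tau (nn i) a = lam b) (i : Fin 4) (j : Fin 3) : c i * a j = 0 := by
  have e : ∀ p : I4, ∑ i, c i * dw (nn i) hh (bl a) p = wedge hh (bl b) p := by
    intro p
    have := congrFun h p
    rw [Finset.sum_apply] at this
    exact this
  have k1 := e ((0, 1), (1, 1))
  have k2 := e ((0, 1), (2, 2))
  have k3 := e ((0, 1), (1, 2))
  have k4 := e ((0, 1), (2, 1))
  have l1 := e ((0, 2), (1, 1))
  have l2 := e ((0, 2), (2, 2))
  have l3 := e ((0, 2), (1, 2))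
  have l4 := e ((0, 2), (2, 1))
  have m1 := e ((1, 0), (1, 1))
  have m2 := e ((1, 0), (2, 2))
  have m3 := e ((1, 0), (1, 2))
  have m4 := e ((1, 0), (2, 1))
  have n1 := e ((2, 0), (1, 1))
  have n2 := e ((2, 0), (2, 2))
  have n3 := e ((2, 0), (1, 2))
  have n4 := e ((2, 0), (2, 1))
  simp [Fin.sum_univ_four, dw, wedge, br, nn, hh, bl, Matrix.mul_apply, Matrix.sub_apply,
    Fin.sum_univ_three] at k1 k2 k3 k4 l1 l2 l3 l4 m1 m2 m3 m4 n1 n2 n3 n4
  have z3 : (1 + 2 : ℂ) ≠ 0 := by norm_num
  have z4 : (-2 - 1 : ℂ) ≠ 0 := by norm_num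
  simp only [z3, z4, false_or] at k3 k4 l3 l4 m3 m4 n3 n4
  rw [← mul_eq_zero] at k3 k4 l3 l4 m3 m4 n3 n4
  have k0 : c 0 * a 0 = 0 := by linear_combination (k1 - k2) / 6
  have l0 : c 1 * a 0 = 0 := by linear_combination (l1 - l2) / 6
  have m0 : c 2 * a 0 = 0 := by linear_combination (m2 - m1) / 6
  have n0 : c 3 * a 0 = 0 := by linear_combination (n2 - n1) / 6
  fin_cases i <;> fin_cases j <;> assumption

/-- The plane. -/
noncomputable def pl : Submodule ℂ (I4 → ℂ) := LinearMap.range lam

theorem lam_inj : Function.Injective lam := fun a b h => by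
  have := congrArg prj h
  rwa [prj_lam, prj_lam] at this

theorem indep (a : Fin 3 → ℂ) (ha : a ≠ 0) :
    LinearIndependent ℂ (fun i => pl.mkQ (tau (nn i) a)) := by
  rw [Fintype.linearIndependent_iff]
  intro c hc i
  have h1 : pl.mkQ (∑ i, c i • tau (nn i) a) = 0 := by
    rw [map_sum]
    simpa only [map_smul] using hc
  rw [Submodule.mkQ_apply, Submodule.Quotient.mk_eq_zero] at h1
  obtain ⟨b, hb⟩ := h1
  obtain ⟨j, hj⟩ := Function.ne_iff.1 ha
  have h2 := det_coord c a b hb.symm i j
  rcases mul_eq_zero.1 h2 with h3 | h3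
  · exact h3
  · exact absurd h3 hj

theorem pln_ (_ : S_ADW) : S_PLN := by
  intro hsm hon
  refine ⟨pl, ?_, ?_, fun i => tau (nn i) ∘ₗ prj, ?_⟩
  · have := LinearMap.finrank_range_of_inj lam_inj
    rw [pl, this]
    simp
  · rintro z ⟨a, rfl⟩ hz
    exact (hon _).2 ⟨lam_mem a, hz⟩
  · rintro z ⟨a, rfl⟩ hz
    have ha : a ≠ 0 := by
      rintro rfl
      exact hz (map_zero _)
    have hA : ∀ i, (tau (nn i) ∘ₗ prj) (lam a) = tau (nn i) a := by
      intro i
      rw [LinearMap.comp_apply, prj_lam]
    have hon' := (hon _).2 ⟨lam_mem a, hz⟩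
    have hind : LinearIndependent ℂ (fun i => pl.mkQ ((tau (nn i) ∘ₗ prj) (lam a))) := by
      simp only [hA]
      exact indep a ha
    refine ⟨hind, ?_⟩
    symm
    have hle : pl ⊔ Submodule.span ℂ (Set.range fun i => (tau (nn i) ∘ₗ prj) (lam a)) ≤
        tangent (ideal C0) (lam a) := by
      refine sup_le ?_ ?_
      · rintro v ⟨b, rfl⟩
        have key := curve_tangent (ideal C0) C0 (fun F hF z hz => hF z hz)
          (fun p => Polynomial.C (lam a p) + Polynomial.X * Polynomial.C (lam b p)) (by
            intro t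
            have := lam_mem (a + t • b)
            rw [map_add, map_smul] at this
            convert this using 1
            funext p
            simp only [Polynomial.eval_add, Polynomial.eval_mul, Polynomial.eval_C,
              Polynomial.eval_X, Pi.add_apply, Pi.smul_apply, smul_eq_mul])
        simpa using key
      · rw [Submodule.span_le]
        rintro v ⟨i, rfl⟩
        simp only [hA]
        rw [tau_apply]
        exact dw_tangent (nn i) (nn_sq i) hh (bl a) hh_trace (bl_trace a) (hh_bl a)
    apply Submodule.eq_of_le_of_finrank_le hle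
    rw [hsm _ hon']
    have hb : LinearIndependent ℂ (fun j : Fin 3 =>
        (⟨lam (Pi.single j 1), ⟨_, rfl⟩⟩ : pl)) := by
      have h1 : LinearIndependent ℂ (fun j : Fin 3 => lam (Pi.single j (1 : ℂ))) := by
        have h2 := (Pi.basisFun ℂ (Fin 3)).linearIndependent.map' lam
          (LinearMap.ker_eq_bot.2 lam_inj)
        have h3 : (lam ∘ (Pi.basisFun ℂ (Fin 3))) = fun j : Fin 3 => lam (Pi.single j (1 : ℂ)) := by
          funext j
          simp
        rw [h3] at h2
        exact h2
      exact LinearIndependent.of_comp pl.subtype h1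
    have hs := hb.sumElim_of_quotient (fun i => (tau (nn i) ∘ₗ prj) (lam a)) hind
    have hc := finrank_span_eq_card hs
    have hc' : Fintype.card (Fin 3 ⊕ Fin (6 - 2)) = 6 + 1 := by simp
    rw [hc'] at hc
    rw [← hc]
    apply Submodule.finrank_mono
    rw [Submodule.span_le]
    rintro v ⟨s, rfl⟩
    rcases s with j | i
    · exact Submodule.mem_sup_left (Subtype.mem _)
    · exact Submodule.mem_sup_right (Submodule.subset_span ⟨i, rfl⟩)

end Pool.Agent.T2h18.AP
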